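import Pool.Agent.L7h11.RO.Core

/-!
# Rohrlich's conjecture at ALL fractions whose denominator is near the denominator of a good approximation

The numbers `a_i = c_i t + x_i`, `1 ≤ i ≤ r`, are affine functions with rational coefficients of one rational parameter `t`. They
are commensurable, so that the reflection and the multiplication formula act on their Gamma values, and Rohrlich's identity may
hold for all `t` or not. We consider the open direction of Rohrlich's conjecture for the multiples `α π ^ (r/2)` whose factor `α`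
is simple: it satisfies a nontrivial polynomial relation of degree at most `d` with the numbers `exp (2 π i t / N)` and
`p ^ (t / N)`, `p` one of the first `B` primes, with integer coefficients at most `q ^ A`, `q` the denominator of `t`.

(1) For every `ε > 0` it holds, for all denominators `q ≤ X` but `C X^ε`, at EVERY fraction `t` of the interval `[a, b]` with the
denominator `q`, i.e. for every numerator.

(2) Let `G` have steps bounded below and growth at most `v^e`, for instance `G v = v`, let `0 ≤ κ ≤ 1`, `β` in `ℝ^m` and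
`τ > 0`. For all `α` in `ℝ^m` outside a set of Hausdorff dimension at most `(m + κ) / (1 + τ)`, all `N`, `B`, `d`, `A` and
`C` and all large `q` with `‖q α_j - β_j‖ ≤ C q^(-τ)` for `j = 1, …, m`: it holds at EVERY fraction `t` in `[a, b]` whose
denominator `q'` satisfies `|q' - G q| ≤ q^κ`. For `β = 0`, `C = 1`, `τ = 1 / m` the `q` include the denominators of all best
simultaneous approximations to `α`, a very sparse sequence, and for `κ < 1` the bound is less than `m`, so that the
statement holds for almost all `α`.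

Proof. By the starting theorem `CommensurableArguments` there are `O(X^ε)` exceptional `t` of denominator at most `X`; the
numbers `α` with infinitely many approximations with denominators in a thin set are covered by few small cubes
(`Pool.Agent.N671.DA`).
-/

set_option autoImplicit false

namespace Pool.Agent.Results.MP_c2409d_nt.EveryNumerator

open Pool.Agent.N671.DA (Solves Expanding expanding_pow)
open Pool.Agent.L7h11.RO

/-- **Theorem.** Let `c_i ≠ 0` and `x_i` be rational numbers and `[a, b]` an interval on which no `c_i s + x_i` is a pole of the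
gamma function. (1) For all `N ≥ 1`, `B`, `d`, `A` and `ε > 0` all but `C X^ε` of the denominators `q ≤ X` satisfy
`EveryNumerator`. (2) For `α` outside a set of dimension at most `(m + κ) / (1 + τ)` this holds for all `N ≥ 1`, `B`, `d`, `A`,
`C` and all `q'` with `|q' - G q| ≤ q^κ`, for all large `q` with `‖q α_j - β_j‖ ≤ C q^(-τ)` for all `j`. (3) The functions
`u v^e`, `u > 0`, `e ≥ 1`, are examples of `G`. -/
theorem result (r : ℕ) (c : Fin r → ℚ) (hc : ∀ i, c i ≠ 0) (x : Fin r → ℚ) (a b : ℝ)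
    (hpole : ∀ i (s : ℝ), a ≤ s → s ≤ b → ∀ k : ℕ, (c i : ℝ) * s + x i ≠ -k) :
    (∀ (N B d : ℕ) (A ε : ℝ), 0 < N → 0 < ε → ∃ C : ℝ, ∀ X : ℝ, 1 ≤ X →
      ({q : ℕ | (q : ℝ) ≤ X ∧ ¬ EveryNumerator c x a b N B d A q}.ncard : ℝ) ≤ C * X ^ ε) ∧
    (∀ (G : ℕ → ℝ) (e : ℝ), Expanding G e → ∀ κ : ℝ, 0 ≤ κ → κ ≤ 1 → ∀ (m : ℕ) (β : Fin m → ℝ) (τ : ℝ), 0 < τ →
      ∃ E : Set (Fin m → ℝ), dimH E ≤ ENNReal.ofReal ((m + κ) / (1 + τ)) ∧
        ∀ α, α ∉ E → ∀ (N B d : ℕ) (A C : ℝ), 0 < N → ∃ Q : ℕ, ∀ q : ℕ, Q ≤ q → Solves α β q (C * (q : ℝ) ^ (-τ)) →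
          ∀ q' : ℕ, |(q' : ℝ) - G q| ≤ (q : ℝ) ^ κ → EveryNumerator c x a b N B d A q') ∧
    ∀ u e : ℝ, 0 < u → 1 ≤ e → Expanding (fun v => u * (v : ℝ) ^ e) e := by
  refine ⟨fun N B d A ε hN hε => ?_, fun G e hG κ hκ hκ1 m β τ hτ => ?_, fun u e hu he => expanding_pow hu he⟩
  · obtain ⟨C, hC⟩ := count_den c hc x a b hpole N B d hN A ε hε
    refine ⟨C, fun X hX => le_trans (le_of_eq ?_) (hC X hX).2⟩
    congr 2
    ext q
    simp only [Set.mem_ofPred_eq, true_and]
    exact and_comm
  · have key : ∀ v : ℕ × ℕ × ℕ × ℕ, ∃ E : Set (Fin m → ℝ), dimH E ≤ ENNReal.ofReal ((m + κ) / (1 + τ)) ∧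
        ∀ α, α ∉ E → ∀ C : ℝ, 0 < v.1 → ∃ Q : ℕ, ∀ q : ℕ, Q ≤ q → Solves α β q (C * (q : ℝ) ^ (-τ)) →
          ∀ q' : ℕ, |(q' : ℝ) - G q| ≤ (q : ℝ) ^ κ → EveryNumerator c x a b v.1 v.2.1 v.2.2.1 v.2.2.2 q' := by
      rintro ⟨N, B, d, A⟩
      by_cases hN : 0 < N
      swap
      · exact ⟨∅, by rw [dimH_empty]; exact zero_le, fun α _ C h => absurd h hN⟩
      obtain ⟨E, hE, h⟩ := Pool.Agent.N671.DA.approx_good (fun _ : ℕ => True) (EveryNumerator c x a b N B d A)
        (fun q : ℕ => (q : ℝ)) hG (s := 0) (κ := κ) le_rfl hκ hκ1 (by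
          intro ε hε
          obtain ⟨C, hC⟩ := count_den c hc x a b hpole N B d hN A ε hε
          exact ⟨C, fun X hX => by rw [zero_add]; exact hC X hX⟩) β hτ
      refine ⟨E, by simpa using hE, fun α hα C _ => ?_⟩
      obtain ⟨Q, hQ⟩ := h α hα C
      exact ⟨Q, fun q hq h1 q' h2 => hQ q hq h1 q' trivial h2⟩
    choose E hE h using key
    refine ⟨⋃ v, E v, ?_, fun α hα N B d A C hN => ?_⟩
    · rw [dimH_iUnion]
      exact iSup_le hE
    · obtain ⟨Q, hQ⟩ := h (N, B, d, ⌈A⌉₊) α (fun hh => hα (Set.mem_iUnion.2 ⟨_, hh⟩)) C hN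
      refine ⟨Q, fun q hq h1 q' h2 t ht ha hb => (hQ q hq h1 q' h2 t ht ha hb).mono ?_⟩
      have h3 : 1 ≤ q' := ht ▸ t.den_pos
      exact Real.rpow_le_rpow_of_exponent_le (by exact_mod_cast h3) (Nat.le_ceil A)

end Pool.Agent.Results.MP_c2409d_nt.EveryNumerator
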