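import Pool.Agent.L7h11.RO.Core
import Pool.Agent.N733.TG.K

/-!
# Rohrlich's conjecture at all fractions whose denominator is near the value of a multiplicative function

The numbers `a_i = c_i t + x_i`, `1 ≤ i ≤ r`, are affine functions with rational coefficients of one rational parameter `t`; they
are commensurable, so that Rohrlich's identity may hold for all `t` or not. We consider the open direction of Rohrlich's
conjecture for the multiples `α π ^ (r/2)` with a simple factor `α` (a nontrivial polynomial relation of degree at most `d` with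
the numbers `exp (2 π i t / N)` and `p ^ (t / N)`, `p` one of the first `B` primes, with integer coefficients at most `q ^ A`,
`q` the denominator of `t`).

Let `f` be a positive multiplicative function of at most polynomial growth with `f p ≤ M p` for the large primes `p` and
different values at different large primes; for example Euler's function or the sum of the divisors. Let `G` have steps bounded
below and growth at most `v^e`, for instance `G v = v ^ 5`, and let `0 ≤ κ < 1`. Then for all `m ≤ X` but `X / (log X)^U`, for
every `U`, the conjecture holds in this sense at EVERY fraction `t` of the interval whose denominator `q` satisfies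
`|q - G (f m)| ≤ (f m)^κ`, for every numerator.

The values of `f` are in general taken with very large multiplicities, and so this does not follow from the number `O(X^ε)`
of the exceptional fractions with denominators at most `X` alone. Proof: the starting theorem `CommensurableArguments` and the tool
of helper733 (such functions avoid sets with a power saving).
-/

set_option autoImplicit false

namespace Pool.Agent.Results.MP_c2409d_nt.MultiplicativeValues

open Pool.Agent.N733.TG (LM Expanding lm_totient lm_sigma expanding_pow)
open Pool.Agent.L7h11.RO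

/-- **Theorem.** Let `c_i ≠ 0` and `x_i` be rational numbers and `[a, b]` an interval on which no `c_i s + x_i` is a pole of the
gamma function. Let `f` satisfy `LM`, let `G` be expanding of growth `e`, `0 ≤ κ < 1`, `N ≥ 1`, and `B`, `d`, `A`, `U` be
given. For all large `X` and all `m` in `[1, X]` but at most `X / (log X)^U`: every `q` with `|q - G (f m)| ≤ (f m)^κ` satisfies
`EveryNumerator`. Euler's function and the sum of the divisors satisfy `LM`, the functions `u v^e` are expanding. -/
theorem result (r : ℕ) (c : Fin r → ℚ) (hc : ∀ i, c i ≠ 0) (x : Fin r → ℚ) (a b : ℝ)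
    (hpole : ∀ i (s : ℝ), a ≤ s → s ≤ b → ∀ k : ℕ, (c i : ℝ) * s + x i ≠ -k) :
    (∀ f : ℕ → ℕ, LM f → ∀ (G : ℕ → ℝ) (e : ℝ), Expanding G e → ∀ κ : ℝ, 0 ≤ κ → κ < 1 →
      ∀ (N B d : ℕ) (A : ℝ) (U : ℕ), 0 < N → ∃ X₀ : ℕ, ∀ X : ℕ, X₀ ≤ X →
        ({m : ℕ | 1 ≤ m ∧ m ≤ X ∧ ¬ ∀ q : ℕ, |(q : ℝ) - G (f m)| ≤ (f m : ℝ) ^ κ →
          EveryNumerator c x a b N B d A q}.ncard : ℝ) ≤ X / Real.log X ^ U) ∧
    (LM Nat.totient ∧ LM (fun m => ∑ k ∈ m.divisors, k)) ∧
    ∀ u e : ℝ, 0 < u → 1 ≤ e → Expanding (fun v => u * (v : ℝ) ^ e) e := by
  refine ⟨fun f hf G e hG κ hκ hκ1 N B d A U hN => ?_, ⟨lm_totient, lm_sigma⟩, fun u e hu he => expanding_pow hu he⟩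
  obtain ⟨X₀, h⟩ := Pool.Agent.N733.TG.keep_good (fun _ : ℕ => True) (EveryNumerator c x a b N B d A)
    (fun q : ℕ => (q : ℝ)) hf hG (s := 0) (κ := κ) le_rfl hκ (by linarith) (by
      intro ε hε
      obtain ⟨C, hC⟩ := count_den c hc x a b hpole N B d hN A ε hε
      exact ⟨C, fun X hX => by rw [zero_add]; exact hC X hX⟩) U
  refine ⟨X₀, fun X hX => le_trans (le_of_eq ?_) (h X hX)⟩
  congr 2
  ext m
  simp only [Set.mem_ofPred_eq, true_implies]

end Pool.Agent.Results.MP_c2409d_nt.MultiplicativeValues
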