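import Pool.Agent.L7h11.RO.Core
import Pool.Agent.R482.ST.Frac

/-!
# Rohrlich's conjecture at all fractions with denominators in the windows of a sequence, up to dimension zero

The numbers `a_i = c_i t + x_i`, `1 ≤ i ≤ r`, are affine functions with rational coefficients of one rational parameter `t`; they
are commensurable, so that Rohrlich's identity may hold for all `t` or not. We consider the open direction of Rohrlich's
conjecture for the multiples `α π ^ (r/2)` with a simple factor `α` (a nontrivial polynomial relation of degree at most `d` with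
the numbers `exp (2 π i t / N)` and `p ^ (t / N)`, `p` one of the first `B` primes, with integer coefficients at most `q ^ A`,
`q` the denominator of `t`).

Let `f_k`, `k = 0, 1, 2, …`, be positive functions on `(a₀, ∞)`, `a₀ ≥ 0`, such that `f_k(y) / y` is nondecreasing, and such that
the sequence `f_k(y)` has exponent of convergence at most `τ` for each `y > a₀`: for instance `f_k(y) = v_k y` (`τ` the exponent of
convergence of `v_k > 0`), `f_k(y) = y ^ (v_k)` for exponents `v_k ≥ 1` (`τ = 0`), or the orbits `f_k(y) = g (g (⋯ g (y)))` of any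
map `g` with `g(y) > y` and `g(y) / y` nondecreasing (`τ = 0`). Let `θ < 1`. For all `y > a₀` outside a set of Hausdorff
dimension at most `τ / (1 - θ)`, all `N`, `B`, `d`, `A` and `C`, for all but finitely many `k` the conjecture holds in this sense
at EVERY fraction `t` of the interval whose denominator `q` satisfies `|q - f_k(y)| ≤ C f_k(y)^θ`, for every numerator.

For `τ = 0`, for instance for the sequences `2^k y`, `y^k`, this is so for all `y` outside one set of dimension ZERO and for all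
the windows of length `f_k(y)^θ`, with `θ` arbitrarily close to one. Proof: the starting theorem `CommensurableArguments` and the tool `Pool.Agent.R482.ST`.
-/

set_option autoImplicit false

namespace Pool.Agent.Results.MP_c2409d_nt.StarshapedDenominators

open Pool.Agent.L7h11.RO

/-- the functions `f n` are positive on `(a, ∞)`, `a ≥ 0`, and `f n x / x` is nondecreasing there -/
def Starshaped (a : ℝ) (f : ℕ → ℝ → ℝ) : Prop :=
  0 ≤ a ∧ ∀ n : ℕ, ∀ x y : ℝ, a < x → x ≤ y → 0 < f n x ∧ f n x / x ≤ f n y / y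

/-- for each `x > a` the exponent of convergence of the sequence `f n x` is at most `τ` -/
def ExpLe (a : ℝ) (f : ℕ → ℝ → ℝ) (τ : ℝ) : Prop :=
  ∀ x : ℝ, a < x → ∀ t : ℝ, τ < t → Summable (fun n : ℕ => (f n x) ^ (-t))

/-- **Theorem.** Let `c_i ≠ 0` and `x_i` be rational numbers and `[a, b]` an interval on which no `c_i s + x_i` is a pole of the
gamma function. (1) Let `f` be starshaped on `(a₀, ∞)` of exponent at most `τ ≥ 0`. There is a set `E` of Hausdorff dimension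
zero if `τ = 0`, and in general for every `θ < 1` a set `E` of dimension at most `τ / (1 - θ)`, such that for all `y > a₀` not
in `E`, all `N ≥ 1`, `B`, `d`, `A` and `C` and all large `k`: every `q` with `|q - f_k(y)| ≤ C f_k(y)^θ` satisfies
`EveryNumerator`; for `τ = 0` the set `E` serves for all `θ < 1`. (2) The functions `v_k y`, `v_k > 0`, are starshaped on
`(0, ∞)`, of exponent `τ` if `v` has exponent of convergence at most `τ`; the functions `y ^ (v_k)`, `v_k ≥ 1`, are starshaped on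
`(1, ∞)`, of exponent `0` if the sums of `exp (-t v_k)` converge for `t > 0`; and the iterates of a map `g` with `g(y) > y` for
`y > a` and `g(y) / y` nondecreasing are starshaped on `(a, ∞)`, of exponent `0`. -/
theorem result (r : ℕ) (c : Fin r → ℚ) (hc : ∀ i, c i ≠ 0) (x : Fin r → ℚ) (a b : ℝ)
    (hpole : ∀ i (s : ℝ), a ≤ s → s ≤ b → ∀ k : ℕ, (c i : ℝ) * s + x i ≠ -k) :
    (∀ (f : ℕ → ℝ → ℝ) (a₀ τ : ℝ), Starshaped a₀ f → 0 ≤ τ → ExpLe a₀ f τ →
      (∀ θ : ℝ, θ < 1 → ∃ E : Set ℝ, dimH E ≤ ENNReal.ofReal (τ / (1 - θ)) ∧ ∀ y : ℝ, a₀ < y → y ∉ E →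
        ∀ (N B d : ℕ) (A C : ℝ), 0 < N → ∃ k₀ : ℕ, ∀ k : ℕ, k₀ ≤ k → ∀ q : ℕ, |(q : ℝ) - f k y| ≤ C * (f k y) ^ θ →
          EveryNumerator c x a b N B d A q) ∧
      (τ = 0 → ∃ E : Set ℝ, dimH E = 0 ∧ ∀ y : ℝ, a₀ < y → y ∉ E →
        ∀ (N B d : ℕ) (A C θ : ℝ), 0 < N → θ < 1 → ∃ k₀ : ℕ, ∀ k : ℕ, k₀ ≤ k → ∀ q : ℕ,
          |(q : ℝ) - f k y| ≤ C * (f k y) ^ θ → EveryNumerator c x a b N B d A q)) ∧
    (∀ (v : ℕ → ℝ) (τ : ℝ), (∀ n, 0 < v n) → (∀ t : ℝ, τ < t → Summable (fun n : ℕ => (v n) ^ (-t))) →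
      Starshaped 0 (fun n x => v n * x) ∧ ExpLe 0 (fun n x => v n * x) τ) ∧
    (∀ v : ℕ → ℝ, (∀ n, 1 ≤ v n) → (∀ t : ℝ, 0 < t → Summable fun n : ℕ => Real.exp (-(t * v n))) →
      Starshaped 1 (fun n x => x ^ (v n)) ∧ ExpLe 1 (fun n x => x ^ (v n)) 0) ∧
    (∀ (a : ℝ) (g : ℝ → ℝ), 0 ≤ a → (∀ x y : ℝ, a < x → x ≤ y → g x / x ≤ g y / y) → (∀ x : ℝ, a < x → x < g x) →
      Starshaped a (fun n x => g^[n] x) ∧ ExpLe a (fun n x => g^[n] x) 0) := by
  refine ⟨?_, Pool.Agent.R482.ST.ex_mul, Pool.Agent.R482.ST.ex_pow, Pool.Agent.R482.ST.ex_orbit⟩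
  intro f a₀ τ hf hτ hv
  have main : ∀ θ : ℝ, θ < 1 → ∃ E : Set ℝ, dimH E ≤ ENNReal.ofReal (τ / (1 - θ)) ∧ ∀ y : ℝ, a₀ < y → y ∉ E →
        ∀ (N B d : ℕ) (A C : ℝ), 0 < N → ∃ k₀ : ℕ, ∀ k : ℕ, k₀ ≤ k → ∀ q : ℕ, |(q : ℝ) - f k y| ≤ C * (f k y) ^ θ →
          EveryNumerator c x a b N B d A q := by
    intro θ hθ
    have key : ∀ v : ℕ × ℕ × ℕ × ℕ, ∃ E : Set ℝ, dimH E ≤ ENNReal.ofReal (τ / (1 - θ)) ∧ ∀ y : ℝ, a₀ < y → y ∉ E →
        ∀ C : ℝ, 0 < v.1 → ∃ k₀ : ℕ, ∀ k : ℕ, k₀ ≤ k → ∀ q : ℕ, |(q : ℝ) - f k y| ≤ C * (f k y) ^ θ →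
          EveryNumerator c x a b v.1 v.2.1 v.2.2.1 v.2.2.2 q := by
      rintro ⟨N, B, d, A⟩
      by_cases hN : 0 < N
      swap
      · exact ⟨∅, by rw [dimH_empty]; exact zero_le, fun y _ _ C h => absurd h hN⟩
      obtain ⟨E, hE, h⟩ := Pool.Agent.R482.ST.windows {q : ℕ | True ∧ ¬ EveryNumerator c x a b N B d A q}
        (fun q : ℕ => (q : ℝ)) (s := 0) (θ := θ) hf hτ hv le_rfl hθ (by
          intro ε hε
          obtain ⟨C, hC⟩ := count_den c hc x a b hpole N B d hN A ε hε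
          exact ⟨C, fun X hX => by rw [zero_add]; exact hC X hX⟩)
      refine ⟨E, by simpa using hE, fun y hy hyE C _ => ?_⟩
      obtain ⟨k₀, hk₀⟩ := h y hy hyE C
      refine ⟨k₀, fun k hk q hq => ?_⟩
      by_contra hcon
      exact absurd (hk₀ k hk q ⟨trivial, hcon⟩) (not_lt.2 hq)
    choose E hE h using key
    refine ⟨⋃ v, E v, ?_, fun y hy hyE N B d A C hN => ?_⟩
    · rw [dimH_iUnion]
      exact iSup_le hE
    · obtain ⟨k₀, hk₀⟩ := h (N, B, d, ⌈A⌉₊) y hy (fun hh => hyE (Set.mem_iUnion.2 ⟨_, hh⟩)) C hN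
      refine ⟨k₀, fun k hk q hq t ht ha hb => (hk₀ k hk q hq t ht ha hb).mono ?_⟩
      have h3 : 1 ≤ q := ht ▸ t.den_pos
      exact Real.rpow_le_rpow_of_exponent_le (by exact_mod_cast h3) (Nat.le_ceil A)
  refine ⟨main, fun h0 => ?_⟩
  subst h0
  choose E hE h using fun n : ℕ => main (1 - 1 / ((n : ℝ) + 1)) (by
    have : (0 : ℝ) < 1 / ((n : ℝ) + 1) := by positivity
    linarith)
  refine ⟨⋃ n, E n, ?_, fun y hy hyE N B d A C θ hN hθ => ?_⟩
  · rw [dimH_iUnion]
    have h1 : ∀ n, dimH (E n) = 0 := fun n => by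
      have := hE n
      rw [zero_div, ENNReal.ofReal_zero] at this
      exact le_antisymm this zero_le
    simp [h1]
  · obtain ⟨n, hn⟩ := exists_nat_one_div_lt (sub_pos.2 hθ)
    obtain ⟨k₀, hk₀⟩ := h n y hy (fun hh => hyE (Set.mem_iUnion.2 ⟨_, hh⟩)) N B d A |C| hN
    have hsum := hv y hy 1 one_pos
    have hlim : Filter.Tendsto (fun k : ℕ => (f k y) ^ (-(1 : ℝ))) Filter.atTop (nhds 0) := hsum.tendsto_atTop_zero
    obtain ⟨k₁, hk₁⟩ := Filter.eventually_atTop.1 (hlim.eventually (gt_mem_nhds (zero_lt_one : (0 : ℝ) < 1)))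
    refine ⟨max k₀ k₁, fun k hk q hq => hk₀ k ((le_max_left _ _).trans hk) q (hq.trans ?_)⟩
    have h2 := hk₁ k ((le_max_right _ _).trans hk)
    have hpos : 0 < f k y := (hf.2 k y y hy le_rfl).1
    have h3 : 1 ≤ f k y := by
      rw [Real.rpow_neg_one] at h2
      have h4 := (inv_lt_one₀ hpos).1 h2
      exact h4.le
    calc C * f k y ^ θ ≤ |C| * f k y ^ θ := mul_le_mul_of_nonneg_right (le_abs_self C) (by positivity)
      _ ≤ |C| * f k y ^ (1 - 1 / ((n : ℝ) + 1)) :=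
          mul_le_mul_of_nonneg_left (Real.rpow_le_rpow_of_exponent_le h3 (by linarith)) (abs_nonneg C)

end Pool.Agent.Results.MP_c2409d_nt.StarshapedDenominators
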