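import Pool.Agent.L7h11.RO.Core
import Pool.Agent.N760.IT.C

/-!
# Rohrlich's conjecture at all fractions with denominators near almost all orbits of Euler's function

The numbers `a_i = c_i t + x_i`, `1 ≤ i ≤ r`, are affine functions with rational coefficients of one rational parameter `t`; they
are commensurable, so that Rohrlich's identity may hold for all `t` or not. We consider the open direction of Rohrlich's
conjecture for the multiples `α π ^ (r/2)` with a simple factor `α` (a nontrivial polynomial relation of degree at most `d` with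
the numbers `exp (2 π i t / N)` and `p ^ (t / N)`, `p` one of the first `B` primes, with integer coefficients at most `q ^ A`,
`q` the denominator of `t`).

Let `φ_j` be the `j`-th iterate of Euler's function, `φ_0(m) = m`. Let `f` be a positive multiplicative function of at most
polynomial growth with `f p ≤ M p` for the large primes `p` and different values at different large primes; for example the
identity, Euler's function or the sum of the divisors. Let `G` have steps bounded below and growth at most `v^e`, and let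
`0 ≤ κ < 1`. There is `K(m)` tending to infinity such that for almost all `m`, for ALL `j ≤ K(m)` the conjecture holds in this
sense, for all `N`, `B`, `d`, `A` at most `K(m)`, at EVERY fraction `t` of the interval whose denominator `q` satisfies
`|q - G v| ≤ v^κ`, `v = f(φ_j(m))`. So the degree of the factors `α` tends to infinity, and so does the exponent of the bound
`q ^ A` of the coefficients.

The iterates of Euler's function are not multiplicative, their values form a thin set and are taken with very large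
multiplicities. Proof: the starting theorem `CommensurableArguments`, the tool `Pool.Agent.N760.IT`, and a diagonal argument.
-/

set_option autoImplicit false

namespace Pool.Agent.Results.MP_c2409d_nt.TotientOrbits

open Filter
open Pool.Agent.N733.TG (LM Expanding lm_totient lm_sigma expanding_pow)
open Pool.Agent.N760.IT (orb lm_id)
open Pool.Agent.N826.IT.Orb (AlmostAll almostAll_iff almostAll_mono almostAll_finset diagonal card_mono')
open Pool.Agent.L7h11.RO

theorem core (r : ℕ) (c : Fin r → ℚ) (hc : ∀ i, c i ≠ 0) (x : Fin r → ℚ) (a b : ℝ)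
    (hpole : ∀ i (s : ℝ), a ≤ s → s ≤ b → ∀ k : ℕ, (c i : ℝ) * s + x i ≠ -k)
    (f : ℕ → ℕ) (hf : LM f) (G : ℕ → ℝ) (e : ℝ) (hG : Expanding G e) (κ : ℝ) (hκ : 0 ≤ κ) (hκ1 : κ < 1)
    (J : ℕ) (v : ℕ × ℕ × ℕ × ℕ) (hN : 0 < v.1) :
    AlmostAll (fun m => ∀ j ≤ J, ∀ q : ℕ, |(q : ℝ) - G (orb f j m)| ≤ (orb f j m : ℝ) ^ κ →
      EveryNumerator c x a b v.1 v.2.1 v.2.2.1 v.2.2.2 q) := by
  obtain ⟨K, hK, hK2⟩ := Pool.Agent.N760.IT.orbit_good (fun _ : ℕ => True)
    (EveryNumerator c x a b v.1 v.2.1 v.2.2.1 v.2.2.2) (fun q : ℕ => (q : ℝ)) hf hG (s := 0) (κ := κ) le_rfl hκ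
    (by linarith) (by
      intro ε hε
      obtain ⟨C, hC⟩ := count_den c hc x a b hpole v.1 v.2.1 v.2.2.1 hN v.2.2.2 ε hε
      exact ⟨C, fun X hX => by rw [zero_add]; exact hC X hX⟩)
  rw [almostAll_iff] at *
  intro ε hε
  obtain ⟨N₀, h₀⟩ := hK2 (ε / 2) (by positivity)
  obtain ⟨M, hM⟩ := (tendsto_atTop_atTop.1 hK) J
  obtain ⟨N₁, hN₁⟩ := exists_nat_ge (M / (ε / 2))
  refine ⟨max N₀ N₁, fun N hN => ?_⟩
  have h1 := h₀ N ((le_max_left _ _).trans hN)
  classical
  have hsub : (Finset.Icc 1 N).filter (fun m => ¬ ∀ j ≤ J, ∀ q : ℕ, |(q : ℝ) - G (orb f j m)| ≤ (orb f j m : ℝ) ^ κ →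
      EveryNumerator c x a b v.1 v.2.1 v.2.2.1 v.2.2.2 q) ⊆
      (Finset.Icc 1 N).filter (fun m => ¬ ∀ j ≤ K m, ∀ t : ℕ, True → |(t : ℝ) - G (orb f j m)| ≤ (orb f j m : ℝ) ^ κ →
        EveryNumerator c x a b v.1 v.2.1 v.2.2.1 v.2.2.2 t) ∪ Finset.range M := by
    intro m hm
    rw [Finset.mem_filter] at hm
    rw [Finset.mem_union, Finset.mem_filter, Finset.mem_range]
    by_cases hmM : m < M
    · exact Or.inr hmM
    · refine Or.inl ⟨hm.1, fun h => hm.2 fun j hj q hq => h j (hj.trans (hM m (not_lt.1 hmM))) q trivial hq⟩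
  have h2 := (Finset.card_le_card hsub).trans (Finset.card_union_le _ _)
  rw [Finset.card_range] at h2
  have h3 : (M : ℝ) ≤ ε / 2 * N := by
    have h4 : ((M : ℝ) / (ε / 2)) ≤ N := hN₁.trans (by exact_mod_cast (le_max_right _ _).trans hN)
    rw [div_le_iff₀ (by positivity)] at h4
    linarith
  have h5 : (((Finset.Icc 1 N).filter (fun m => ¬ ∀ j ≤ J, ∀ q : ℕ, |(q : ℝ) - G (orb f j m)| ≤
      (orb f j m : ℝ) ^ κ → EveryNumerator c x a b v.1 v.2.1 v.2.2.1 v.2.2.2 q)).card : ℝ) ≤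
      (((Finset.Icc 1 N).filter (fun m => ¬ ∀ j ≤ K m, ∀ t : ℕ, True → |(t : ℝ) - G (orb f j m)| ≤
        (orb f j m : ℝ) ^ κ → EveryNumerator c x a b v.1 v.2.1 v.2.2.1 v.2.2.2 t)).card : ℝ) + M := by
    exact_mod_cast h2
  have h6 : (((Finset.Icc 1 N).filter (fun m => ¬ ∀ j ≤ K m, ∀ t : ℕ, True → |(t : ℝ) - G (orb f j m)| ≤
        (orb f j m : ℝ) ^ κ → EveryNumerator c x a b v.1 v.2.1 v.2.2.1 v.2.2.2 t)).card : ℝ) ≤ ε / 2 * N := by
    refine le_trans (le_of_eq ?_) h1
    congr!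
  refine le_trans (le_of_eq (by congr!)) (h5.trans ?_)
  linarith

/-- **Theorem.** Let `c_i ≠ 0` and `x_i` be rational numbers and `[a, b]` an interval on which no `c_i s + x_i` is a pole of the
gamma function. Let `f` satisfy `LM`, let `G` be expanding of growth `e` and `0 ≤ κ < 1`. There is `K(m)` tending to infinity
such that for every `ε > 0`, for all large `X` and all `m` in `[1, X]` but `ε X`: for all `j ≤ K(m)` and all `N`, `B`, `d`, `A`
at most `K(m)`, `N ≥ 1`, every `q` with `|q - G v| ≤ v^κ`, `v = orb f j m` the value of `f` at the `j`-th iterate of Euler's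
function at `m`, satisfies `EveryNumerator`. The identity, Euler's function and the sum of the divisors satisfy `LM`, the
functions `u v^e` are expanding. -/
theorem result (r : ℕ) (c : Fin r → ℚ) (hc : ∀ i, c i ≠ 0) (x : Fin r → ℚ) (a b : ℝ)
    (hpole : ∀ i (s : ℝ), a ≤ s → s ≤ b → ∀ k : ℕ, (c i : ℝ) * s + x i ≠ -k) :
    (∀ f : ℕ → ℕ, LM f → ∀ (G : ℕ → ℝ) (e : ℝ), Expanding G e → ∀ κ : ℝ, 0 ≤ κ → κ < 1 →
      ∃ K : ℕ → ℕ, Tendsto K atTop atTop ∧ ∀ ε : ℝ, 0 < ε → ∃ X₀ : ℕ, ∀ X : ℕ, X₀ ≤ X →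
        ({m : ℕ | 1 ≤ m ∧ m ≤ X ∧ ¬ ∀ j ≤ K m, ∀ N ≤ K m, ∀ B ≤ K m, ∀ d ≤ K m, ∀ A ≤ K m, 0 < N →
          ∀ q : ℕ, |(q : ℝ) - G (orb f j m)| ≤ (orb f j m : ℝ) ^ κ →
            EveryNumerator c x a b N B d A q}.ncard : ℝ) ≤ ε * X) ∧
    (LM (fun m => m) ∧ LM Nat.totient ∧ LM (fun m => ∑ k ∈ m.divisors, k)) ∧
    ∀ u e : ℝ, 0 < u → 1 ≤ e → Expanding (fun v => u * (v : ℝ) ^ e) e := by
  refine ⟨fun f hf G e hG κ hκ hκ1 => ?_, ⟨lm_id, lm_totient, lm_sigma⟩, fun u e hu he => expanding_pow hu he⟩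
  classical
  obtain ⟨K, hK, hK2⟩ := diagonal (P := fun J m => ∀ j ≤ J, ∀ N ≤ J, ∀ B ≤ J, ∀ d ≤ J, ∀ A ≤ J, 0 < N →
      ∀ q : ℕ, |(q : ℝ) - G (orb f j m)| ≤ (orb f j m : ℝ) ^ κ → EveryNumerator c x a b N B d A q)
    (fun i j m hij h k hk N hN B hB d hd A hA => h k (hk.trans hij) N (hN.trans hij) B (hB.trans hij) d (hd.trans hij) A
      (hA.trans hij)) (fun J => by
    have h1 := almostAll_finset ((Finset.range (J + 1)) ×ˢ (Finset.range (J + 1)) ×ˢ (Finset.range (J + 1)) ×ˢ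
      (Finset.range (J + 1))) (P := fun (v : ℕ × ℕ × ℕ × ℕ) m => 0 < v.1 → ∀ j ≤ J, ∀ q : ℕ,
        |(q : ℝ) - G (orb f j m)| ≤ (orb f j m : ℝ) ^ κ → EveryNumerator c x a b v.1 v.2.1 v.2.2.1 v.2.2.2 q)
      (fun v _ => by
        by_cases hN : 0 < v.1
        · exact almostAll_mono (core r c hc x a b hpole f hf G e hG κ hκ hκ1 J v hN) (fun m hm _ => hm)
        · exact Pool.Agent.N826.IT.Orb.almostAll_true fun m h => absurd h hN)
    refine almostAll_mono h1 (fun m hm j hj N hN B hB d hd A hA hN0 q hq => ?_)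
    refine hm (N, B, d, A) ?_ hN0 j hj q hq
    simp only [Finset.mem_product, Finset.mem_range]
    omega)
  refine ⟨K, hK, fun ε hε => ?_⟩
  rw [almostAll_iff] at hK2
  obtain ⟨N₀, h₀⟩ := hK2 ε hε
  refine ⟨N₀, fun X hX => le_trans (le_of_eq ?_) (h₀ X hX)⟩
  rw [← Set.ncard_coe_finset]
  congr 2
  ext m
  simp only [Finset.coe_filter, Finset.mem_Icc, Set.mem_ofPred_eq]
  tauto

end Pool.Agent.Results.MP_c2409d_nt.TotientOrbits
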